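import Mathlib

/-!
# Broadcasts: hearing independence and boundary independence

Definitions for connected finite graphs, following the problem file.
-/

namespace Pool.Agent.Lib.MP_511249_co

open Finset

variable {V : Type} [Fintype V] (G : SimpleGraph V)

/-- The eccentricity of `v`: the largest distance from `v` to a vertex (for a connected graph). -/
noncomputable def ecc (v : V) : ℕ := Finset.univ.sup (fun w => G.dist v w)

/-- `f` is a broadcast: `f v ≤ e(v)` for all `v` if there are at least two vertices, and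
`f v = 1` if `v` is the only vertex. -/
def IsBroadcast (f : V → ℕ) : Prop :=
  (Fintype.card V = 1 → ∀ v, f v = 1) ∧ (Fintype.card V ≠ 1 → ∀ v, f v ≤ ecc G v)

/-- The vertex `u` hears `f` from the broadcasting vertex `v`. -/
def Hears (f : V → ℕ) (u v : V) : Prop := 0 < f v ∧ G.dist u v ≤ f v

/-- Boundary independence: a vertex `x` that hears `f` from at least two broadcasting vertices
satisfies `d(x, w) ≥ f(w)` for all broadcasting vertices `w`. -/
def BnIndep (f : V → ℕ) : Prop :=
  ∀ x u v : V, u ≠ v → Hears G f x u → Hears G f x v → ∀ w, 0 < f w → f w ≤ G.dist x w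

/-- Hearing independence: no broadcasting vertex hears `f` from another vertex. -/
def HIndep (f : V → ℕ) : Prop :=
  ∀ u v : V, 0 < f u → u ≠ v → ¬ Hears G f u v

/-- `f` is a broadcast with property `P` and no broadcast `g > f` has property `P`. -/
def IsMaximalWith (P : (V → ℕ) → Prop) (f : V → ℕ) : Prop :=
  IsBroadcast G f ∧ P f ∧ ∀ g : V → ℕ, IsBroadcast G g → P g → (∀ v, f v ≤ g v) → g = f

/-- The minimum cost of a maximal boundary independent broadcast. -/
noncomputable def ibn : ℕ :=
  sInf {c : ℕ | ∃ f : V → ℕ, IsMaximalWith G (BnIndep G) f ∧ c = ∑ v, f v}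

/-- The minimum cost of a maximal hearing independent broadcast. -/
noncomputable def ih : ℕ :=
  sInf {c : ℕ | ∃ f : V → ℕ, IsMaximalWith G (HIndep G) f ∧ c = ∑ v, f v}

/-! ### General facts -/

lemma dist_le_ecc (v w : V) : G.dist v w ≤ ecc G v :=
  Finset.le_sup (f := fun w => G.dist v w) (Finset.mem_univ w)

lemma ecc_le {v : V} {n : ℕ} (h : ∀ w, G.dist v w ≤ n) : ecc G v ≤ n :=
  Finset.sup_le (fun w _ => h w)

/-- There is a maximal hearing independent broadcast (on at least two vertices). -/
lemma exists_maximal_h (h2 : Fintype.card V ≠ 1) :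
    ∃ f : V → ℕ, IsMaximalWith G (HIndep G) f := by
  classical
  -- choose an independent broadcast of maximum cost
  let S : Set ℕ := {c | ∃ f : V → ℕ, IsBroadcast G f ∧ HIndep G f ∧ c = ∑ v, f v}
  have hne : S.Nonempty := by
    refine ⟨0, fun _ => 0, ⟨fun h => absurd h h2, fun _ v => Nat.zero_le _⟩, ?_, by simp⟩
    intro u v hu
    exact absurd hu (lt_irrefl 0)
  have hbdd : BddAbove S := by
    refine ⟨∑ v, ecc G v, ?_⟩
    rintro c ⟨f, hf, _, rfl⟩
    exact Finset.sum_le_sum (fun v _ => hf.2 h2 v)
  obtain ⟨f, hf, hfi, hc⟩ := Nat.sSup_mem hne hbdd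
  refine ⟨f, hf, hfi, ?_⟩
  intro g hg hgi hle
  have h1 : ∑ v, g v ≤ ∑ v, f v := by
    rw [← hc]
    exact le_csSup hbdd ⟨g, hg, hgi, rfl⟩
  have h3 : ∀ v ∈ Finset.univ, f v = g v := by
    apply (Finset.sum_eq_sum_iff_of_le (fun v _ => hle v)).mp
    exact le_antisymm (Finset.sum_le_sum (fun v _ => hle v)) h1
  funext v
  exact (h3 v (Finset.mem_univ v)).symm

variable {G}

/-- A maximal hearing independent broadcast is dominating. -/
lemma maximal_h_dominating (hconn : G.Connected) (h2 : 1 < Fintype.card V) {f : V → ℕ}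
    (hf : IsMaximalWith G (HIndep G) f) (w : V) : ∃ v, Hears G f w v := by
  classical
  by_contra hc
  push Not at hc
  have hw0 : f w = 0 := by
    by_contra h
    exact hc w ⟨Nat.pos_of_ne_zero h, by simp⟩
  obtain ⟨hb, hi, hmax⟩ := hf
  have hne1 : Fintype.card V ≠ 1 := by omega
  let g : V → ℕ := Function.update f w 1
  have hgw : g w = 1 := Function.update_self w 1 f
  have hgv : ∀ v, v ≠ w → g v = f v := fun v hv => Function.update_of_ne hv 1 f
  have hgb : IsBroadcast G g := by
    refine ⟨fun h => absurd h hne1, fun _ v => ?_⟩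
    by_cases hv : v = w
    · subst hv
      rw [hgw]
      obtain ⟨x, hx⟩ := Fintype.exists_ne_of_one_lt_card h2 v
      have := hconn.pos_dist_of_ne hx.symm
      exact le_trans this (dist_le_ecc G v x)
    · rw [hgv v hv]; exact hb.2 hne1 v
  have hgi : HIndep G g := by
    intro u v hu huv hh
    obtain ⟨h1, h3⟩ := hh
    by_cases hv : v = w
    · subst hv
      rw [hgw] at h3
      have huf : 0 < f u := by rwa [hgv u huv] at hu
      apply hc u
      refine ⟨huf, ?_⟩
      rw [SimpleGraph.dist_comm]
      omega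
    · rw [hgv v hv] at h1 h3
      by_cases hu' : u = w
      · subst hu'
        exact hc v ⟨h1, h3⟩
      · rw [hgv u hu'] at hu
        exact hi u v hu huv ⟨h1, h3⟩
  have hle : ∀ v, f v ≤ g v := by
    intro v
    by_cases hv : v = w
    · subst hv; rw [hw0]; exact Nat.zero_le _
    · rw [hgv v hv]
  have := hmax g hgb hgi hle
  rw [this, hw0] at hgw
  exact absurd hgw (by norm_num)

/-- In a maximal hearing independent broadcast with at least two broadcasting vertices, every
broadcasting vertex `w` has another one at distance exactly `f w + 1`. -/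
lemma maximal_h_near (h2 : 1 < Fintype.card V) {f : V → ℕ}
    (hf : IsMaximalWith G (HIndep G) f) {w z : V} (hw : 0 < f w) (hz : 0 < f z) (hwz : w ≠ z) :
    ∃ y, 0 < f y ∧ y ≠ w ∧ G.dist y w = f w + 1 ∧ f y ≤ f w := by
  classical
  obtain ⟨hb, hi, hmax⟩ := hf
  have hne1 : Fintype.card V ≠ 1 := by omega
  have hecc : f w + 1 ≤ ecc G w := by
    have h1 : ¬ (G.dist z w ≤ f w) := fun h => hi z w hz hwz.symm ⟨hw, h⟩
    have h3 := dist_le_ecc G w z
    rw [SimpleGraph.dist_comm] at h3
    omega
  let g : V → ℕ := Function.update f w (f w + 1)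
  have hgw : g w = f w + 1 := Function.update_self w _ f
  have hgv : ∀ v, v ≠ w → g v = f v := fun v hv => Function.update_of_ne hv _ f
  have hgb : IsBroadcast G g := by
    refine ⟨fun h => absurd h hne1, fun _ v => ?_⟩
    by_cases hv : v = w
    · subst hv; rw [hgw]; exact hecc
    · rw [hgv v hv]; exact hb.2 hne1 v
  have hle : ∀ v, f v ≤ g v := by
    intro v
    by_cases hv : v = w
    · subst hv; rw [hgw]; omega
    · rw [hgv v hv]
  have hgni : ¬ HIndep G g := by
    intro hgi
    have := hmax g hgb hgi hle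
    rw [this] at hgw
    omega
  unfold HIndep at hgni
  push Not at hgni
  obtain ⟨u, v, hu, huv, h1, h3⟩ := hgni
  by_cases hv : v = w
  · subst hv
    rw [hgw] at h3
    have huf : 0 < f u := by rwa [hgv u huv] at hu
    have h4 : ¬ (G.dist u v ≤ f v) := fun h => hi u v huf huv ⟨hw, h⟩
    have h5 : ¬ (G.dist v u ≤ f u) := fun h => hi v u hw huv.symm ⟨huf, h⟩
    rw [SimpleGraph.dist_comm] at h5
    exact ⟨u, huf, huv, by omega, by omega⟩
  · exfalso
    rw [hgv v hv] at h1 h3
    have huf : 0 < f u := by
      by_cases hu' : u = w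
      · subst hu'; exact hw
      · rwa [hgv u hu'] at hu
    exact hi u v huf huv ⟨h1, h3⟩

end Pool.Agent.Lib.MP_511249_co
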