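import Mathlib
import Pool.Agent.Lib.MP_511249_co.Defs

/-!
# A path of spiders

`K` spiders; the `i`-th one has a centre and `M + 2` legs of length `r`. The end of leg `1` of
spider `i` is joined to the end of leg `0` of spider `i + 1`.
-/

namespace Pool.Agent.Lib.MP_511249_co

open Finset

/-- Vertices: spider number, and either the centre (`none`) or (leg, height). -/
abbrev W (K M r : ℕ) := Fin K × Option (Fin (M + 2) × Fin r)

/-- The (oriented) adjacency relation. -/
def Rel (K M r : ℕ) (x y : W K M r) : Prop :=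
  match x.2, y.2 with
  | none, some (_, h) => x.1 = y.1 ∧ h.val = 0
  | some (j, h), some (j', h') =>
      (x.1 = y.1 ∧ j = j' ∧ h.val + 1 = h'.val) ∨
      (x.1.val + 1 = y.1.val ∧ j.val = 1 ∧ j'.val = 0 ∧ h.val + 1 = r ∧ h'.val + 1 = r)
  | _, _ => False

/-- The path of spiders. -/
def SG (K M r : ℕ) : SimpleGraph (W K M r) := SimpleGraph.fromRel (Rel K M r)

variable {K M r : ℕ}

/-- The centre of spider `i`. -/
def ctr (i : Fin K) : W K M r := (i, none)

/-- If `F` grows by at most one along edges, then `F y ≤ F x + d(x, y)`. -/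
lemma lipschitz {V : Type} {G : SimpleGraph V} (F : V → ℕ)
    (hF : ∀ y y', G.Adj y y' → F y' ≤ F y + 1) {x y : V} (hr : G.Reachable x y) :
    F y ≤ F x + G.dist x y := by
  obtain ⟨p, hp⟩ := hr.exists_walk_length_eq_dist
  rw [← hp]
  clear hp hr
  induction p with
  | nil => simp
  | cons h p ih =>
    rw [SimpleGraph.Walk.length_cons]
    have := hF _ _ h
    omega

lemma sg_adj {x y : W K M r} : (SG K M r).Adj x y ↔ x ≠ y ∧ (Rel K M r x y ∨ Rel K M r y x) :=
  SimpleGraph.fromRel_adj _ _ _

/-- A leg vertex is at distance at most `h + 1` from the centre. -/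
lemma walk_leg (i : Fin K) (j : Fin (M + 2)) : ∀ (n : ℕ) (hn : n < r),
    ∃ p : (SG K M r).Walk (ctr i) (i, some (j, ⟨n, hn⟩)), p.length = n + 1 := by
  intro n
  induction n with
  | zero =>
    intro hn
    have hadj : (SG K M r).Adj (ctr i) (i, some (j, ⟨0, hn⟩)) := by
      rw [sg_adj]
      refine ⟨by simp [ctr], Or.inl ?_⟩
      simp [Rel, ctr]
    exact ⟨SimpleGraph.Walk.cons hadj SimpleGraph.Walk.nil, by simp⟩
  | succ n ih =>
    intro hn
    obtain ⟨p, hp⟩ := ih (by omega)
    have hadj : (SG K M r).Adj (i, some (j, ⟨n, by omega⟩)) (i, some (j, ⟨n+1, hn⟩)) := by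
      rw [sg_adj]
      refine ⟨by simp, Or.inl ?_⟩
      simp [Rel]
    exact ⟨p.concat hadj, by simp [hp]⟩

lemma dist_leg (i : Fin K) (j : Fin (M + 2)) (h : Fin r) :
    (SG K M r).dist (ctr i) (i, some (j, h)) ≤ h.val + 1 := by
  obtain ⟨p, hp⟩ := walk_leg (M := M) i j h.val h.isLt
  have := SimpleGraph.dist_le p
  rwa [hp] at this

lemma reach_ctr (x : W K M r) : (SG K M r).Reachable (ctr x.1) x := by
  obtain ⟨i, o⟩ := x
  cases o with
  | none => exact SimpleGraph.Reachable.refl _
  | some q =>
    obtain ⟨j, h⟩ := q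
    obtain ⟨p, _⟩ := walk_leg (M := M) i j h.val h.isLt
    exact ⟨p⟩

lemma link_adj (hr : 0 < r) {i i' : Fin K} (hi : i.val + 1 = i'.val) :
    (SG K M r).Adj (i, some (⟨1, by omega⟩, ⟨r - 1, by omega⟩))
      (i', some (⟨0, by omega⟩, ⟨r - 1, by omega⟩)) := by
  rw [sg_adj]
  refine ⟨?_, Or.inl ?_⟩
  · intro h
    have := congrArg (fun x => x.1.val) h
    simp at this
    omega
  · simp only [Rel]
    right
    refine ⟨hi, trivial, trivial, ?_, ?_⟩ <;> omega

lemma reach_succ (hr : 0 < r) {i i' : Fin K} (hi : i.val + 1 = i'.val) :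
    (SG K M r).Reachable (ctr i) (ctr i') := by
  have h1 := reach_ctr (K := K) (M := M) (r := r) (i, some (⟨1, by omega⟩, ⟨r - 1, by omega⟩))
  have h2 := reach_ctr (K := K) (M := M) (r := r) (i', some (⟨0, by omega⟩, ⟨r - 1, by omega⟩))
  exact (h1.trans (link_adj hr hi).reachable).trans h2.symm

lemma sg_connected (hr : 0 < r) (hK : 0 < K) : (SG K M r).Connected := by
  have h0 : ∀ n (hn : n < K), (SG K M r).Reachable (ctr ⟨0, hK⟩) (ctr ⟨n, hn⟩) := by
    intro n
    induction n with
    | zero => intro _; exact SimpleGraph.Reachable.refl _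
    | succ n ih =>
      intro hn
      exact (ih (by omega)).trans (reach_succ hr rfl)
  rw [SimpleGraph.connected_iff_exists_forall_reachable]
  exact ⟨ctr ⟨0, hK⟩, fun x => (h0 x.1.val x.1.isLt).trans (reach_ctr x)⟩

/-- The position along the main path. -/
def pos (x : W K M r) : ℕ :=
  match x.2 with
  | none => x.1.val * (2 * r + 1) + r
  | some (j, h) =>
    if j.val = 0 then x.1.val * (2 * r + 1) + r - (h.val + 1)
    else if j.val = 1 then x.1.val * (2 * r + 1) + r + (h.val + 1)
    else x.1.val * (2 * r + 1) + r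

lemma rel_pos {x y : W K M r} (h : Rel K M r x y) :
    pos y ≤ pos x + 1 ∧ pos x ≤ pos y + 1 := by
  obtain ⟨i, o⟩ := x
  obtain ⟨i', o'⟩ := y
  cases o with
  | none =>
    cases o' with
    | none => simp [Rel] at h
    | some q =>
      obtain ⟨j, h'⟩ := q
      simp only [Rel] at h
      obtain ⟨rfl, h0⟩ := h
      simp only [pos]
      have := h'.isLt
      split_ifs <;> omega
  | some q =>
    obtain ⟨j, h1⟩ := q
    cases o' with
    | none => simp [Rel] at h
    | some q' =>
      obtain ⟨j', h2⟩ := q'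
      simp only [Rel] at h
      have l1 := h1.isLt
      have l2 := h2.isLt
      rcases h with ⟨rfl, rfl, h3⟩ | ⟨h3, h4, h5, h6, h7⟩
      · simp only [pos]
        split_ifs <;> omega
      · have e1 : ¬ (j.val = 0) := by omega
        simp only [pos, if_neg e1, if_pos h4, if_pos h5]
        rw [← h3, Nat.add_mul]
        omega

lemma pos_lip {x y : W K M r} (h : (SG K M r).Adj x y) : pos y ≤ pos x + 1 := by
  rw [sg_adj] at h
  rcases h.2 with h | h
  · exact (rel_pos h).1
  · exact (rel_pos h).2

lemma pos_le (hconn : (SG K M r).Connected) (x y : W K M r) :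
    pos y ≤ pos x + (SG K M r).dist x y :=
  lipschitz pos (fun _ _ h => pos_lip h) (hconn x y)

/-- Distances between centres. -/
lemma dist_ctr (hconn : (SG K M r).Connected) (i i' : Fin K) :
    i'.val * (2 * r + 1) ≤ i.val * (2 * r + 1) + (SG K M r).dist (ctr i) (ctr i') := by
  have := pos_le hconn (ctr i) (ctr i')
  simp only [pos, ctr] at this
  simp only [ctr]
  omega

/-- Every vertex is within `r` of the centre of its spider. -/
lemma dist_own (x : W K M r) : (SG K M r).dist x (ctr x.1) ≤ r := by
  obtain ⟨i, o⟩ := x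
  rw [SimpleGraph.dist_comm]
  cases o with
  | none => simp [ctr]
  | some q =>
    obtain ⟨j, h⟩ := q
    have := dist_leg (M := M) i j h
    have := h.isLt
    simp only
    omega

/-- `x` lies on leg `j` of spider `i`. -/
def onLeg (i : Fin K) (j : Fin (M + 2)) (x : W K M r) : Prop :=
  x.1 = i ∧ ∃ h, x.2 = some (j, h)

instance (i : Fin K) (j : Fin (M + 2)) (x : W K M r) : Decidable (onLeg i j x) := by
  unfold onLeg; infer_instance

/-- The height of a vertex. -/
def ht (x : W K M r) : ℕ :=
  match x.2 with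
  | none => 0
  | some (_, h) => h.val + 1

/-- The end of leg `j`. -/
def leaf (hr : 0 < r) (i : Fin K) (j : Fin (M + 2)) : W K M r := (i, some (j, ⟨r - 1, by omega⟩))

/-- For a private leg (`j ≥ 2`), the distance from outside to the end of the leg. -/
lemma dist_leaf (hr : 0 < r) (hconn : (SG K M r).Connected) (i : Fin K) (j : Fin (M + 2))
    (hj : 2 ≤ j.val) (x : W K M r) (hx : ¬ onLeg i j x) :
    (SG K M r).dist x (ctr i) + r ≤ (SG K M r).dist x (leaf hr i j) := by
  classical
  set G := SG K M r with hG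
  let F : W K M r → ℕ := fun y => if onLeg i j y then G.dist x (ctr i) + ht y else G.dist x y
  have hF : ∀ y y', G.Adj y y' → F y' ≤ F y + 1 := by
    intro y y' hadj
    have htri : G.dist x y' ≤ G.dist x y + 1 := by
      have := hconn.dist_triangle (u := x) (v := y) (w := y')
      rw [SimpleGraph.dist_eq_one_iff_adj.mpr hadj] at this
      exact this
    have hrel := (sg_adj.mp hadj).2
    simp only [F]
    by_cases h1 : onLeg i j y <;> by_cases h2 : onLeg i j y'
    · rw [if_pos h1, if_pos h2]
      obtain ⟨a1, b1, c1⟩ := h1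
      obtain ⟨a2, b2, c2⟩ := h2
      simp only [ht, c1, c2]
      simp only [Rel, c1, c2] at hrel
      rcases hrel with (⟨_, _, h⟩ | ⟨_, h, _⟩) | (⟨_, _, h⟩ | ⟨_, h, _⟩) <;> omega
    · rw [if_pos h1, if_neg h2]
      -- leaving the leg: `y'` must be the centre
      obtain ⟨a1, b1, c1⟩ := h1
      have hy' : y' = ctr i := by
        obtain ⟨i', o'⟩ := y'
        cases o' with
        | none =>
          simp only [Rel, c1] at hrel
          rcases hrel with h | h
          · exact absurd h (by simp)
          · simp only [ctr, Prod.mk.injEq, and_true]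
            rw [h.1, a1]
        | some q =>
          obtain ⟨j', h'⟩ := q
          exfalso
          simp only [Rel, c1] at hrel
          rcases hrel with (⟨e1, e2, _⟩ | ⟨_, e, _⟩) | (⟨e1, e2, _⟩ | ⟨_, _, e, _⟩)
          · exact h2 ⟨e1.symm.trans a1, h', by rw [e2]⟩
          · omega
          · exact h2 ⟨e1.trans a1, h', by rw [e2]⟩
          · omega
      rw [hy']
      omega
    · rw [if_neg h1, if_pos h2]
      obtain ⟨a2, b2, c2⟩ := h2
      have hy : y = ctr i ∧ b2.val = 0 := by
        obtain ⟨i', o'⟩ := y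
        cases o' with
        | none =>
          simp only [Rel, c2] at hrel
          rcases hrel with h | h
          · refine ⟨?_, h.2⟩
            simp only [ctr, Prod.mk.injEq, and_true]
            rw [h.1, a2]
          · exact absurd h (by simp)
        | some q =>
          obtain ⟨j', h'⟩ := q
          exfalso
          simp only [Rel, c2] at hrel
          rcases hrel with (⟨e1, e2, _⟩ | ⟨_, _, e, _⟩) | (⟨e1, e2, _⟩ | ⟨_, e, _⟩)
          · exact h1 ⟨e1.trans a2, h', by rw [e2]⟩
          · omega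
          · exact h1 ⟨e1.symm.trans a2, h', by rw [e2]⟩
          · omega
      rw [hy.1]
      simp only [ht, c2, hy.2]
      omega
    · rw [if_neg h1, if_neg h2]
      exact htri
  have h := lipschitz F hF (hconn x (leaf hr i j))
  have hFx : F x = 0 := by simp only [F]; rw [if_neg hx]; simp
  have hFl : F (leaf hr i j) = G.dist x (ctr i) + r := by
    simp only [F]
    have h1 : onLeg i j (leaf (M := M) hr i j) := ⟨rfl, ⟨r - 1, by omega⟩, rfl⟩
    rw [if_pos h1]
    simp only [ht, leaf]
    omega
  rw [hFx, hFl] at h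
  omega

lemma card_W_gt (hr : 0 < r) (hK : 0 < K) : 1 < Fintype.card (W K M r) := by
  rw [Fintype.one_lt_card_iff]
  refine ⟨(⟨0, hK⟩, none), (⟨0, hK⟩, some (⟨0, by omega⟩, ⟨0, hr⟩)), ?_⟩
  simp

end Pool.Agent.Lib.MP_511249_co
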