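import Mathlib
import Pool.Agent.Lib.MP_511249_co.Graph

/-!
# Bounds for the path of spiders
-/

namespace Pool.Agent.Lib.MP_511249_co

open Finset

variable {K M r : ℕ}

/-! ### Lower bound for hearing independent broadcasts -/

/-- A set of spiders with pairwise bounded index differences is small. -/
lemma card_bound (A : Finset (Fin K)) (B D : ℕ) (hA : A.Nonempty)
    (h : ∀ i ∈ A, ∀ i' ∈ A, i'.val * D ≤ i.val * D + B) : A.card * D ≤ B + D := by
  obtain ⟨a, ha, hmin⟩ := Finset.exists_min_image A (fun i => i.val) hA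
  obtain ⟨b, hb, hmax⟩ := Finset.exists_max_image A (fun i => i.val) hA
  have h1 : A.card ≤ b.val - a.val + 1 := by
    have h2 : (A.map Fin.valEmbedding) ⊆ Finset.Icc a.val b.val := by
      intro x hx
      obtain ⟨i, hi, rfl⟩ := Finset.mem_map.mp hx
      exact Finset.mem_Icc.mpr ⟨hmin i hi, hmax i hi⟩
    have h3 := Finset.card_le_card h2
    rw [Finset.card_map, Nat.card_Icc] at h3
    have := hmin b hb
    omega
  have h4 := h a ha b hb
  have h5 := hmin b hb
  calc A.card * D ≤ (b.val - a.val + 1) * D := Nat.mul_le_mul_right _ h1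
    _ = (b.val * D - a.val * D) + D := by rw [Nat.add_mul, Nat.sub_mul, Nat.one_mul]
    _ ≤ B + D := by omega

theorem lower_bound (hr : 0 < r) (hK : 0 < K) (hrK : 3 * K + 2 ≤ r) (hM : r * K + K ≤ M)
    {f : W K M r → ℕ} (hf : IsMaximalWith (SG K M r) (HIndep (SG K M r)) f) :
    2 * (r * K) + K ≤ 2 * (∑ v, f v) + 1 := by
  classical
  by_contra hcon
  push Not at hcon
  have hconn := sg_connected (K := K) (M := M) (r := r) hr hK
  have hcard := card_W_gt (K := K) (M := M) (r := r) hr hK
  set D := 2 * r + 1 with hD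
  set S : Finset (W K M r) := Finset.univ.filter (fun x => 0 < f x) with hS
  have hsumS : ∑ v ∈ S, f v ≤ ∑ v, f v :=
    Finset.sum_le_sum_of_subset (Finset.subset_univ S)
  have hScard : S.card ≤ ∑ v, f v := by
    calc S.card = ∑ v ∈ S, 1 := by simp
      _ ≤ ∑ v ∈ S, f v := Finset.sum_le_sum (fun v hv => (Finset.mem_filter.mp hv).2)
      _ ≤ _ := hsumS
  have hindep : ∀ u v, 0 < f u → 0 < f v → u ≠ v → f v < (SG K M r).dist u v := by
    intro u v hu hv huv
    by_contra h
    exact hf.2.1 u v hu huv ⟨hv, by omega⟩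
  -- a free private leg at each spider
  have hfree : ∀ i : Fin K, ∃ j : Fin (M + 2), 2 ≤ j.val ∧ ∀ x ∈ S, ¬ onLeg i j x := by
    intro i
    by_contra hc
    push Not at hc
    let leg : W K M r → Fin (M + 2) := fun x =>
      match x.2 with
      | none => 0
      | some (j, _) => j
    have hsurj : Set.SurjOn leg (S : Set (W K M r))
        ((Finset.univ.filter (fun j : Fin (M + 2) => 2 ≤ j.val) : Finset _) : Set _) := by
      intro j hj
      have hj' : 2 ≤ j.val := by simpa using hj
      obtain ⟨x, hx, hl⟩ := hc j hj'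
      refine ⟨x, hx, ?_⟩
      obtain ⟨_, h, h2⟩ := hl
      simp only [leg, h2]
    have h1 := Finset.card_le_card_of_surjOn leg hsurj
    have h2 : (Finset.univ.filter (fun j : Fin (M + 2) => 2 ≤ j.val)).card = M := by
      have h3 : (Finset.univ.filter (fun j : Fin (M + 2) => 2 ≤ j.val)) =
          (Finset.univ.filter (fun j : Fin (M + 2) => j.val < 2))ᶜ := by
        ext j
        simp only [Finset.mem_filter, Finset.mem_univ, true_and, Finset.mem_compl]
        omega
      rw [h3, Finset.card_compl, Fintype.card_fin]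
      have h4 : (Finset.univ.filter (fun j : Fin (M + 2) => j.val < 2)).card = 2 := by
        have : (Finset.univ.filter (fun j : Fin (M + 2) => j.val < 2)) =
            {⟨0, by omega⟩, ⟨1, by omega⟩} := by
          ext j
          simp only [Finset.mem_filter, Finset.mem_univ, true_and, Finset.mem_insert,
            Finset.mem_singleton, Fin.ext_iff]
          omega
        rw [this, Finset.card_pair]
        intro h
        exact absurd (congrArg Fin.val h) (by norm_num)
      omega
    omega
  -- each spider is served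
  have hserve : ∀ i : Fin K, ∃ x ∈ S, (SG K M r).dist x (ctr i) + r ≤ f x := by
    intro i
    obtain ⟨j, hj, hfr⟩ := hfree i
    obtain ⟨x, hx0, hx⟩ := maximal_h_dominating hconn hcard hf (leaf hr i j)
    have hxS : x ∈ S := Finset.mem_filter.mpr ⟨Finset.mem_univ x, hx0⟩
    refine ⟨x, hxS, ?_⟩
    have h1 := dist_leaf hr hconn i j hj x (hfr x hxS)
    rw [SimpleGraph.dist_comm] at hx
    exact h1.trans hx
  -- each broadcasting vertex serves its own spider
  have hown : ∀ w ∈ S, (SG K M r).dist w (ctr w.1) + r ≤ f w := by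
    intro w hw
    obtain ⟨x, hx, hxs⟩ := hserve w.1
    by_cases hwx : w = x
    · subst hwx; exact hxs
    · exfalso
      have h1 := hindep w x (Finset.mem_filter.mp hw).2 (Finset.mem_filter.mp hx).2 hwx
      have h2 := hconn.dist_triangle (u := w) (v := ctr w.1) (w := x)
      have h3 := dist_own w
      rw [SimpleGraph.dist_comm (u := ctr w.1)] at h2
      omega
  let Sv : W K M r → Finset (Fin K) := fun w =>
    Finset.univ.filter (fun i => (SG K M r).dist w (ctr i) + r ≤ f w)
  have hmemSv : ∀ w i, i ∈ Sv w ↔ (SG K M r).dist w (ctr i) + r ≤ f w := by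
    intro w i; simp [Sv]
  have hrf : ∀ w ∈ S, r ≤ f w := fun w hw => by have := hown w hw; omega
  have hDdist : ∀ i i' : Fin K, i'.val * D ≤ i.val * D + (SG K M r).dist (ctr i) (ctr i') :=
    fun i i' => dist_ctr hconn i i'
  have hSvcard : ∀ w ∈ S, r * (Sv w).card ≤ f w := by
    intro w hw
    have hne : (Sv w).Nonempty := ⟨w.1, (hmemSv w w.1).mpr (hown w hw)⟩
    have h1 := card_bound (Sv w) (2 * (f w - r)) D hne (by
      intro i hi i' hi'
      have h2 := hDdist i i'
      have h3 := hconn.dist_triangle (u := ctr i) (v := w) (w := ctr i')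
      have h4 := (hmemSv w i).mp hi
      have h5 := (hmemSv w i').mp hi'
      rw [SimpleGraph.dist_comm (u := ctr i) (v := w)] at h3
      omega)
    have h2 : 1 ≤ (Sv w).card := Finset.card_pos.mpr hne
    have h3 := hrf w hw
    rw [hD] at h1
    have h4 : (Sv w).card * (2 * r + 1) = 2 * (r * (Sv w).card) + (Sv w).card := by ring
    omega
  -- the support is nonempty
  obtain ⟨x0, hx0, _⟩ := hserve ⟨0, hK⟩
  obtain ⟨w, hw, hwmin⟩ := Finset.exists_min_image S f ⟨x0, hx0⟩
  by_cases hone : ∀ z ∈ S, z = w
  · -- only one broadcasting vertex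
    have hall : ∀ i, i ∈ Sv w := by
      intro i
      obtain ⟨x, hx, hxs⟩ := hserve i
      rw [hone x hx] at hxs
      exact (hmemSv w i).mpr hxs
    have hc : (Sv w).card = K := by
      have : Sv w = Finset.univ := by ext i; simp [hall i]
      rw [this, Finset.card_univ, Fintype.card_fin]
    have hne : (Sv w).Nonempty := ⟨w.1, hall w.1⟩
    have h1 := card_bound (Sv w) (2 * (f w - r)) D hne (by
      intro i hi i' hi'
      have h2 := hDdist i i'
      have h3 := hconn.dist_triangle (u := ctr i) (v := w) (w := ctr i')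
      have h4 := (hmemSv w i).mp hi
      have h5 := (hmemSv w i').mp hi'
      rw [SimpleGraph.dist_comm (u := ctr i) (v := w)] at h3
      omega)
    rw [hc, hD] at h1
    have h3 := hrf w hw
    have h4 : K * (2 * r + 1) = 2 * (r * K) + K := by ring
    have h5 : f w ≤ ∑ v, f v := Finset.single_le_sum (fun _ _ => Nat.zero_le _) (Finset.mem_univ w)
    omega
  · push Not at hone
    obtain ⟨z, hz, hzw⟩ := hone
    obtain ⟨y, hy0, hyw, hdist, hfy⟩ := maximal_h_near hcard hf (Finset.mem_filter.mp hw).2
      (Finset.mem_filter.mp hz).2 hzw.symm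
    have hyS : y ∈ S := Finset.mem_filter.mpr ⟨Finset.mem_univ y, hy0⟩
    have hfyw : f y = f w := le_antisymm hfy (hwmin y hyS)
    set m := f w with hm
    have hrm : r ≤ m := hrf w hw
    -- the union of the two served sets
    have hne : (Sv w ∪ Sv y).Nonempty :=
      ⟨w.1, Finset.mem_union_left _ ((hmemSv w w.1).mpr (hown w hw))⟩
    have hdwy : (SG K M r).dist w y = m + 1 := by rw [SimpleGraph.dist_comm]; exact hdist
    have hAcard := card_bound (Sv w ∪ Sv y) (3 * m + 1 - 2 * r) D hne (by
      intro i hi i' hi'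
      have h2 := hDdist i i'
      rcases Finset.mem_union.mp hi with hi | hi <;> rcases Finset.mem_union.mp hi' with hi' | hi'
      · have h3 := hconn.dist_triangle (u := ctr i) (v := w) (w := ctr i')
        have h4 := (hmemSv w i).mp hi
        have h5 := (hmemSv w i').mp hi'
        rw [SimpleGraph.dist_comm (u := ctr i) (v := w)] at h3
        omega
      · have h3 := hconn.dist_triangle (u := ctr i) (v := w) (w := ctr i')
        have h3' := hconn.dist_triangle (u := w) (v := y) (w := ctr i')
        have h4 := (hmemSv w i).mp hi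
        have h5 := (hmemSv y i').mp hi'
        rw [SimpleGraph.dist_comm (u := ctr i) (v := w)] at h3
        omega
      · have h3 := hconn.dist_triangle (u := ctr i) (v := y) (w := ctr i')
        have h3' := hconn.dist_triangle (u := y) (v := w) (w := ctr i')
        have h4 := (hmemSv y i).mp hi
        have h5 := (hmemSv w i').mp hi'
        rw [SimpleGraph.dist_comm (u := ctr i) (v := y)] at h3
        omega
      · have h3 := hconn.dist_triangle (u := ctr i) (v := y) (w := ctr i')
        have h4 := (hmemSv y i).mp hi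
        have h5 := (hmemSv y i').mp hi'
        rw [SimpleGraph.dist_comm (u := ctr i) (v := y)] at h3
        omega)
    have hA1 : 1 ≤ (Sv w ∪ Sv y).card := Finset.card_pos.mpr hne
    set A := (Sv w ∪ Sv y).card with hAdef
    set S' := (S.erase w).erase y with hS'
    -- covering
    have hcover : K ≤ A + ∑ x ∈ S', (Sv x).card := by
      have h1 : (Finset.univ : Finset (Fin K)) ⊆ (Sv w ∪ Sv y) ∪ S'.biUnion Sv := by
        intro i _
        obtain ⟨x, hx, hxs⟩ := hserve i
        by_cases hxw : x = w
        · exact Finset.mem_union_left _ (Finset.mem_union_left _ ((hmemSv w i).mpr (hxw ▸ hxs)))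
        · by_cases hxy : x = y
          · exact Finset.mem_union_left _ (Finset.mem_union_right _ ((hmemSv y i).mpr (hxy ▸ hxs)))
          · apply Finset.mem_union_right
            rw [Finset.mem_biUnion]
            exact ⟨x, Finset.mem_erase.mpr ⟨hxy, Finset.mem_erase.mpr ⟨hxw, hx⟩⟩,
              (hmemSv x i).mpr hxs⟩
      have h2 := Finset.card_le_card h1
      rw [Finset.card_univ, Fintype.card_fin] at h2
      have h3 := Finset.card_union_le (Sv w ∪ Sv y) (S'.biUnion Sv)
      have h4 := Finset.card_biUnion_le (s := S') (t := Sv)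
      omega
    have hsum : r * ∑ x ∈ S', (Sv x).card ≤ ∑ x ∈ S', f x := by
      rw [Finset.mul_sum]
      apply Finset.sum_le_sum
      intro x hx
      exact hSvcard x (Finset.mem_of_mem_erase (Finset.mem_of_mem_erase hx))
    have hsplit : ∑ x ∈ S, f x = m + (m + ∑ x ∈ S', f x) := by
      rw [← Finset.add_sum_erase S f hw, ← Finset.add_sum_erase (S.erase w) f
        (Finset.mem_erase.mpr ⟨hyw, hyS⟩), hfyw]
    rw [hD] at hAcard
    have e1 : A * (2 * r + 1) = 2 * (r * A) + A := by ring
    have e2 : r * K ≤ r * A + r * ∑ x ∈ S', (Sv x).card := by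
      rw [← Nat.mul_add]; exact Nat.mul_le_mul_left r hcover
    have e3 : r ≤ r * A := Nat.le_mul_of_pos_right r hA1
    omega

/-! ### Upper bound for boundary independent broadcasts -/

/-- The broadcast: `r` on the centres, with every third value raised to `r + 1`. -/
def f0 (x : W K M r) : ℕ :=
  match x.2 with
  | none => if x.1.val % 3 = 1 then r + 1 else r
  | some _ => 0

lemma f0_pos {x : W K M r} (h : 0 < f0 x) : x = ctr x.1 := by
  obtain ⟨i, o⟩ := x
  cases o with
  | none => rfl
  | some q => simp [f0] at h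

lemma f0_ctr (i : Fin K) : f0 (ctr i : W K M r) = if i.val % 3 = 1 then r + 1 else r := rfl

lemma f0_le (i : Fin K) : f0 (ctr i : W K M r) ≤ r + 1 := by
  rw [f0_ctr]; split_ifs <;> omega

lemma r_le_f0 (i : Fin K) : r ≤ f0 (ctr i : W K M r) := by
  rw [f0_ctr]; split_ifs <;> omega

lemma sum_range (n : ℕ) : ∑ i ∈ Finset.range (3 * n), (if i % 3 = 1 then r + 1 else r) =
    r * (3 * n) + n := by
  induction n with
  | zero => simp
  | succ n ih =>
    rw [show 3 * (n + 1) = 3 * n + 1 + 1 + 1 by ring, Finset.sum_range_succ,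
      Finset.sum_range_succ, Finset.sum_range_succ, ih]
    rw [if_neg (by omega), if_pos (by omega), if_neg (by omega)]
    ring

lemma cost_f0 (n : ℕ) (hK : K = 3 * n) : ∑ x : W K M r, f0 x = r * K + n := by
  rw [Fintype.sum_prod_type]
  have h1 : ∀ i : Fin K, ∑ o : Option (Fin (M + 2) × Fin r), f0 ((i, o) : W K M r) =
      if i.val % 3 = 1 then r + 1 else r := by
    intro i
    rw [Fintype.sum_option]
    simp [f0]
  rw [Finset.sum_congr rfl (fun i _ => h1 i)]
  rw [Fin.sum_univ_eq_sum_range (fun i => if i % 3 = 1 then r + 1 else r) K, hK, sum_range]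

/-- Adjacent spiders: values at the centres and the distances. -/
lemma two_centres (hr : 0 < r) (hconn : (SG K M r).Connected) {x : W K M r} {i i' : Fin K}
    (hii : i ≠ i') (h1 : (SG K M r).dist x (ctr i) ≤ f0 (ctr i : W K M r))
    (h2 : (SG K M r).dist x (ctr i') ≤ f0 (ctr i' : W K M r)) :
    (SG K M r).dist x (ctr i) = f0 (ctr i : W K M r) := by
  have htri := hconn.dist_triangle (u := ctr i) (v := x) (w := ctr i')
  rw [SimpleGraph.dist_comm (u := ctr i) (v := x)] at htri
  have htri' := hconn.dist_triangle (u := ctr i') (v := x) (w := ctr i)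
  rw [SimpleGraph.dist_comm (u := ctr i') (v := x)] at htri'
  have d1 := dist_ctr hconn i i'
  have d2 := dist_ctr hconn i' i
  have l1 := f0_le (M := M) (r := r) i
  have l2 := f0_le (M := M) (r := r) i'
  have hne : i.val ≠ i'.val := fun h => hii (Fin.ext h)
  -- indices differ by exactly one
  have key : ∀ a b : ℕ, a < b → b * (2 * r + 1) ≤ a * (2 * r + 1) + (2 * r + 2) → b = a + 1 := by
    intro a b hab h
    by_contra hc
    have : a + 2 ≤ b := by omega
    have h3 : (a + 2) * (2 * r + 1) ≤ b * (2 * r + 1) := Nat.mul_le_mul_right _ this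
    rw [Nat.add_mul] at h3
    omega
  rcases lt_or_gt_of_ne hne with hlt | hlt
  · have hb := key i.val i'.val hlt (by omega)
    rw [hb, Nat.add_mul] at d1
    rw [f0_ctr] at *
    rw [hb] at h2
    split_ifs at * <;> omega
  · have hb := key i'.val i.val hlt (by omega)
    rw [hb, Nat.add_mul] at d2
    rw [f0_ctr] at *
    rw [hb] at h1 ⊢
    split_ifs at * <;> omega

/-- For each spider there is a neighbouring one and a vertex between them. -/
lemma exists_between (n : ℕ) (hK : K = 3 * n) (hr : 0 < r) (hconn : (SG K M r).Connected)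
    (i : Fin K) : ∃ (i' : Fin K) (x : W K M r), i' ≠ i ∧
      (SG K M r).dist x (ctr i) ≤ f0 (ctr i : W K M r) ∧
      (SG K M r).dist x (ctr i') ≤ f0 (ctr i' : W K M r) := by
  -- distances of the two link vertices
  have hlink : ∀ a b : Fin K, a.val + 1 = b.val →
      ∃ x1 x2 : W K M r, (SG K M r).dist x1 (ctr a) ≤ r ∧ (SG K M r).dist x1 (ctr b) ≤ r + 1 ∧
        (SG K M r).dist x2 (ctr a) ≤ r + 1 ∧ (SG K M r).dist x2 (ctr b) ≤ r := by
    intro a b hab
    let x1 : W K M r := (a, some (⟨1, by omega⟩, ⟨r - 1, by omega⟩))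
    let x2 : W K M r := (b, some (⟨0, by omega⟩, ⟨r - 1, by omega⟩))
    have e1 : (SG K M r).dist x1 (ctr a) ≤ r := dist_own x1
    have e2 : (SG K M r).dist x2 (ctr b) ≤ r := dist_own x2
    have hadj : (SG K M r).dist x1 x2 = 1 :=
      SimpleGraph.dist_eq_one_iff_adj.mpr (link_adj (M := M) hr hab)
    have hadj' : (SG K M r).dist x2 x1 = 1 := by rw [SimpleGraph.dist_comm]; exact hadj
    have t1 := hconn.dist_triangle (u := x1) (v := x2) (w := ctr b)
    have t2 := hconn.dist_triangle (u := x2) (v := x1) (w := ctr a)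
    exact ⟨x1, x2, e1, by omega, by omega, e2⟩
  have hi := i.isLt
  by_cases h0 : i.val % 3 = 0
  · have hlt : i.val + 1 < K := by omega
    obtain ⟨x1, _, g1, g2, _, _⟩ := hlink i ⟨i.val + 1, hlt⟩ rfl
    refine ⟨⟨i.val + 1, hlt⟩, x1, ?_, ?_, ?_⟩
    · intro h; have := congrArg Fin.val h; simp at this
    · exact g1.trans (r_le_f0 i)
    · rw [f0_ctr, if_pos (by simp only; omega)]; exact g2
  · by_cases h1 : i.val % 3 = 1
    · have hlt : i.val + 1 < K := by omega
      obtain ⟨_, x2, _, _, g3, g4⟩ := hlink i ⟨i.val + 1, hlt⟩ rfl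
      refine ⟨⟨i.val + 1, hlt⟩, x2, ?_, ?_, ?_⟩
      · intro h; have := congrArg Fin.val h; simp at this
      · rw [f0_ctr, if_pos h1]; exact g3
      · exact g4.trans (r_le_f0 _)
    · have hlt : i.val - 1 < K := by omega
      obtain ⟨_, x2, _, _, g3, g4⟩ := hlink ⟨i.val - 1, hlt⟩ i (by simp only; omega)
      refine ⟨⟨i.val - 1, hlt⟩, x2, ?_, ?_, ?_⟩
      · intro h; have := congrArg Fin.val h; simp only at this; omega
      · exact g4.trans (r_le_f0 i)
      · rw [f0_ctr, if_pos (by simp only; omega)]; exact g3

theorem f0_maximal (n : ℕ) (hn : 0 < n) (hK : K = 3 * n) (hr : 0 < r) :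
    IsMaximalWith (SG K M r) (BnIndep (SG K M r)) (f0 : W K M r → ℕ) := by
  classical
  have hK0 : 0 < K := by omega
  have hconn := sg_connected (K := K) (M := M) (r := r) hr hK0
  have hcard := card_W_gt (K := K) (M := M) (r := r) hr hK0
  refine ⟨⟨fun h => by omega, fun _ v => ?_⟩, ?_, ?_⟩
  · -- broadcast
    by_cases hv : f0 v = 0
    · rw [hv]; exact Nat.zero_le _
    · have hv' := f0_pos (Nat.pos_of_ne_zero hv)
      rw [hv']
      set i := v.1 with hi
      obtain ⟨i', hne⟩ : ∃ i' : Fin K, i' ≠ i := by
        by_cases h0 : i.val = 0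
        · exact ⟨⟨1, by omega⟩, fun h => by have := congrArg Fin.val h; simp only at this; omega⟩
        · exact ⟨⟨0, by omega⟩, fun h => by have := congrArg Fin.val h; simp only at this; omega⟩
      have h1 := dist_le_ecc (SG K M r) (ctr i) (ctr i')
      have d1 := dist_ctr hconn i i'
      have d2 := dist_ctr hconn i' i
      rw [SimpleGraph.dist_comm] at d2
      have l1 := f0_le (M := M) (r := r) i
      have hne' : i'.val ≠ i.val := fun h => hne (Fin.ext h)
      rcases lt_or_gt_of_ne hne' with hlt | hlt
      · have h3 : (i'.val + 1) * (2 * r + 1) ≤ i.val * (2 * r + 1) := Nat.mul_le_mul_right _ hlt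
        rw [Nat.add_mul] at h3
        omega
      · have h3 : (i.val + 1) * (2 * r + 1) ≤ i'.val * (2 * r + 1) := Nat.mul_le_mul_right _ hlt
        rw [Nat.add_mul] at h3
        omega
  · -- boundary independence
    intro x u v huv hu hv w hw
    have hu' := f0_pos hu.1
    have hv' := f0_pos hv.1
    have hw' := f0_pos hw
    by_contra hc
    push Not at hc
    -- `x` hears `w` strictly inside; some vertex among `u`, `v` differs from `w`
    have : ∃ z, z ≠ w ∧ Hears (SG K M r) f0 x z := by
      by_cases h : u = w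
      · exact ⟨v, fun h' => huv (h.trans h'.symm), hv⟩
      · exact ⟨u, h, hu⟩
    obtain ⟨z, hzw, hz⟩ := this
    have hz' := f0_pos hz.1
    have hne : w.1 ≠ z.1 := by
      intro h
      apply hzw
      rw [hz', hw', h]
    have h1 := two_centres hr hconn hne (x := x) (by rw [← hw']; exact hc.le)
      (by rw [← hz']; exact hz.2)
    rw [← hw'] at h1
    omega
  · -- maximality
    intro g hgb hgi hle
    by_contra hne
    have : ∃ v, f0 v < g v := by
      by_contra hc
      push Not at hc
      exact hne (funext fun v => le_antisymm (hc v) (hle v))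
    obtain ⟨v, hv⟩ := this
    by_cases hv0 : f0 v = 0
    · -- `v` hears its own centre and itself
      have hvc : v ≠ ctr v.1 := by
        intro h
        have := r_le_f0 (M := M) (r := r) v.1
        rw [← h] at this
        omega
      have h1 : Hears (SG K M r) g v (ctr v.1) := by
        have h2 := r_le_f0 (M := M) (r := r) v.1
        have h3 := hle (ctr v.1)
        have h4 := dist_own v
        exact ⟨by omega, by omega⟩
      have h2 : Hears (SG K M r) g v v := ⟨by omega, by simp⟩
      have h3 := hgi v v (ctr v.1) hvc h2 h1 v (by omega)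
      simp at h3
      omega
    · have hvc := f0_pos (Nat.pos_of_ne_zero hv0)
      obtain ⟨i', x, hne', h1, h2⟩ := exists_between n hK hr hconn v.1
      rw [← hvc] at h1
      have hcne : v ≠ ctr i' := by
        intro h
        apply hne'
        have := congrArg (fun y : W K M r => y.1) h
        exact this.symm
      have h3 : Hears (SG K M r) g x v := ⟨by omega, by omega⟩
      have h4 : Hears (SG K M r) g x (ctr i') := by
        have h5 := hle (ctr i' : W K M r)
        have h6 := r_le_f0 (M := M) (r := r) i'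
        exact ⟨by omega, by omega⟩
      have h5 := hgi x v (ctr i') hcne h3 h4 v (by omega)
      omega

end Pool.Agent.Lib.MP_511249_co
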